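import Pool.Agent.ZPU.Stmts

/-!
Squad ZPU (MP_6e1a06_nt): row WZE, the relation for a primitive `p`-th root of unity.
-/

set_option autoImplicit false

namespace Pool.Agent.ZPU.H51

open Polynomial Pool.Agent.ZPT Pool.Agent.ZP3 Pool.Agent.ZP3.H51

/-- The chain of replacements. -/
theorem wze_core {K : Type} [NormedField K] [IsUltrametricDist K] {P N H e s : ℕ}
    {q lz a b m ee E2 W1 W2 ξ ξt η ω Bt α0 β0 L : K} {c : ℝ}
    (hb : ‖b‖ = 1) (hbω : b = ω * Bt) (ha : ‖a‖ = 1) (hm : ‖m‖ = 1) (hee : ‖ee‖ = 1)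
    (hE2 : ‖E2‖ = 1) (hW1 : ‖W1‖ = 1) (hW2 : ‖W2‖ = 1) (hξt : ‖ξt‖ = 1) (hη : ‖η‖ = 1)
    (hα0 : ‖α0‖ = 1) (hβ0 : ‖β0‖ = 1) (hq : ‖q‖ = 1) (hlz : ‖lz‖ = 1)
    (hξ : ξ = ξt * η ^ s)
    (h1 : ‖(ee / E2) ^ (H * P) * q ^ N - ξ * (W1 / W2) ^ e * (m / b) ^ (N * P)‖ ≤ c)
    (h2 : ‖(ee / E2) ^ (P + 1) - β0 ^ (P + 1)‖ ≤ c)
    (h3 : ‖(m / b) ^ (P + 1) - α0 ^ (P + 1)‖ ≤ c)
    (h4 : ‖q + lz‖ ≤ c) (h5 : ‖a / b - η‖ ≤ c) (hL : b * L = b ^ P * lz) :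
    ‖β0 ^ (H * (P + 1)) * (-1) ^ N * (α0 ^ (N * (P + 1)))⁻¹ * ω ^ s * (m * L) ^ N * b ^ N *
        E2 ^ H * W2 ^ e * Bt ^ s -
      ξt * b ^ ((P + 1) * N) * ee ^ H * W1 ^ e * a ^ s‖ ≤ c := by
  have hb0 : b ≠ 0 := by intro h; rw [h] at hb; simp at hb
  have hE0 : E2 ≠ 0 := by intro h; rw [h] at hE2; simp at hE2
  have hW0 : W2 ≠ 0 := by intro h; rw [h] at hW2; simp at hW2
  have hα00 : α0 ≠ 0 := by intro h; rw [h] at hα0; simp at hα0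
  obtain ⟨α, hα⟩ : ∃ α : K, α = m / b := ⟨_, rfl⟩
  obtain ⟨β, hβ⟩ : ∃ β : K, β = ee / E2 := ⟨_, rfl⟩
  obtain ⟨w, hw⟩ : ∃ w : K, w = W1 / W2 := ⟨_, rfl⟩
  obtain ⟨u, hu⟩ : ∃ u : K, u = a / b := ⟨_, rfl⟩
  have nα : ‖α‖ = 1 := by rw [hα, norm_div, hm, hb, div_one]
  have nβ : ‖β‖ = 1 := by rw [hβ, norm_div, hee, hE2, div_one]
  have nw : ‖w‖ = 1 := by rw [hw, norm_div, hW1, hW2, div_one]
  have nu : ‖u‖ = 1 := by rw [hu, norm_div, ha, hb, div_one]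
  have nξ : ‖ξ‖ = 1 := by rw [hξ, norm_mul, norm_pow, hξt, hη, one_pow, one_mul]
  rw [← hα, ← hβ, ← hw] at h1
  rw [← hβ] at h2
  rw [← hα] at h3
  rw [← hu] at h5
  have eα : α * b = m := by rw [hα]; field_simp
  have eβ : β * E2 = ee := by rw [hβ]; field_simp
  have ew : w * W2 = W1 := by rw [hw]; field_simp
  have eu : u * b = a := by rw [hu]; field_simp
  -- step 1
  have s1 : ‖(β ^ (P + 1)) ^ H * (α * q) ^ N - ξ * w ^ e * β ^ H * (α ^ (P + 1)) ^ N‖ ≤ c := by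
    have h : (β ^ (P + 1)) ^ H * (α * q) ^ N - ξ * w ^ e * β ^ H * (α ^ (P + 1)) ^ N =
        β ^ H * α ^ N * (β ^ (H * P) * q ^ N - ξ * w ^ e * α ^ (N * P)) := by
      have e1 : (β ^ (P + 1)) ^ H = β ^ (H * P) * β ^ H := by
        rw [← pow_mul, ← pow_add]; congr 1; ring
      have e2 : (α ^ (P + 1)) ^ N = α ^ (N * P) * α ^ N := by
        rw [← pow_mul, ← pow_add]; congr 1; ring
      rw [e1, e2, mul_pow]; ring
    rw [h, norm_mul, norm_mul, norm_pow, norm_pow, nα, nβ, one_pow, one_pow, one_mul, one_mul]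
    exact h1
  -- step 2
  have nP1 : ‖β ^ (P + 1)‖ = 1 := by rw [norm_pow, nβ, one_pow]
  have nP2 : ‖β0 ^ (P + 1)‖ = 1 := by rw [norm_pow, hβ0, one_pow]
  have nP3 : ‖α ^ (P + 1)‖ = 1 := by rw [norm_pow, nα, one_pow]
  have nP4 : ‖α0 ^ (P + 1)‖ = 1 := by rw [norm_pow, hα0, one_pow]
  have s2 : ‖(β0 ^ (P + 1)) ^ H * (α * -lz) ^ N - (β ^ (P + 1)) ^ H * (α * q) ^ N‖ ≤ c := by
    refine mul_near ?_ ?_ ?_ ?_
    · rw [norm_pow, nP2, one_pow]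
    · rw [norm_pow, norm_mul, nα, hq, one_mul, one_pow]
    · rw [norm_sub_rev]
      exact (pow_near nP1.le nP2.le H).trans h2
    · refine (pow_near ?_ ?_ N).trans ?_
      · rw [norm_mul, norm_neg, nα, hlz, one_mul]
      · rw [norm_mul, nα, hq, one_mul]
      · have h : α * -lz - α * q = -(α * (q + lz)) := by ring
        rw [h, norm_neg, norm_mul, nα, one_mul]
        exact h4
  have s3 : ‖ξ * w ^ e * β ^ H * (α ^ (P + 1)) ^ N -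
      ξt * u ^ s * w ^ e * β ^ H * (α0 ^ (P + 1)) ^ N‖ ≤ c := by
    refine mul_near ?_ ?_ ?_ ?_
    · rw [norm_mul, norm_mul, norm_pow, norm_pow, nξ, nw, nβ]; simp
    · rw [norm_pow, nP4, one_pow]
    · have h : ξ * w ^ e * β ^ H - ξt * u ^ s * w ^ e * β ^ H =
          -(ξt * w ^ e * β ^ H * (u ^ s - η ^ s)) := by rw [hξ]; ring
      rw [h, norm_neg, norm_mul, norm_mul, norm_mul, norm_pow, norm_pow, hξt, nw, nβ]
      simp only [one_pow, one_mul]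
      exact (pow_near nu.le hη.le s).trans h5
    · exact (pow_near nP3.le nP4.le N).trans h3
  have s4 := tri s2 (tri s1 s3)
  -- last step
  have h : β0 ^ (H * (P + 1)) * (-1) ^ N * (α0 ^ (N * (P + 1)))⁻¹ * ω ^ s * (m * L) ^ N * b ^ N *
        E2 ^ H * W2 ^ e * Bt ^ s -
      ξt * b ^ ((P + 1) * N) * ee ^ H * W1 ^ e * a ^ s =
      ((α0 ^ (N * (P + 1)))⁻¹ * b ^ ((P + 1) * N) * b ^ s * W2 ^ e * E2 ^ H) *
      ((β0 ^ (P + 1)) ^ H * (α * -lz) ^ N -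
        ξt * u ^ s * w ^ e * β ^ H * (α0 ^ (P + 1)) ^ N) := by
    have f1 : (β0 ^ (P + 1)) ^ H = β0 ^ (H * (P + 1)) := by rw [← pow_mul]; congr 1; ring
    have f2 : (α0 ^ (P + 1)) ^ N = α0 ^ (N * (P + 1)) := by rw [← pow_mul]; congr 1; ring
    have f3 : b ^ ((P + 1) * N) = b ^ N * (b ^ P) ^ N := by
      rw [← pow_mul, ← pow_add]; congr 1; ring
    have f4 : (b * L) ^ N = (b ^ P) ^ N * lz ^ N := by rw [hL, mul_pow]
    have f5 : (α0 ^ (N * (P + 1)))⁻¹ * α0 ^ (N * (P + 1)) = 1 :=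
      inv_mul_cancel₀ (pow_ne_zero _ hα00)
    have g1 : β0 ^ (H * (P + 1)) * (-1) ^ N * (α0 ^ (N * (P + 1)))⁻¹ * ω ^ s * (m * L) ^ N *
        b ^ N * E2 ^ H * W2 ^ e * Bt ^ s =
        ((α0 ^ (N * (P + 1)))⁻¹ * b ^ ((P + 1) * N) * b ^ s * W2 ^ e * E2 ^ H) *
        (β0 ^ (H * (P + 1)) * (α * -lz) ^ N) := by
      have k1 : (α * -lz) ^ N = α ^ N * ((-1) ^ N * lz ^ N) := by
        rw [← mul_pow, ← mul_pow]; congr 1; ring
      have k2 : b ^ s = ω ^ s * Bt ^ s := by rw [hbω, mul_pow]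
      have k3 : m ^ N = α ^ N * b ^ N := by rw [← eα, mul_pow]
      have k4 : L ^ N * b ^ N = (b ^ P) ^ N * lz ^ N := by rw [← f4, mul_pow]; ring
      rw [k1, k2, f3, mul_pow m L, k3]
      calc β0 ^ (H * (P + 1)) * (-1) ^ N * (α0 ^ (N * (P + 1)))⁻¹ * ω ^ s *
            (α ^ N * b ^ N * L ^ N) * b ^ N * E2 ^ H * W2 ^ e * Bt ^ s
          = β0 ^ (H * (P + 1)) * (-1) ^ N * (α0 ^ (N * (P + 1)))⁻¹ * ω ^ s *
            (α ^ N * b ^ N) * (L ^ N * b ^ N) * E2 ^ H * W2 ^ e * Bt ^ s := by ring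
        _ = _ := by rw [k4]; ring
    have g2 : ξt * b ^ ((P + 1) * N) * ee ^ H * W1 ^ e * a ^ s =
        ((α0 ^ (N * (P + 1)))⁻¹ * b ^ ((P + 1) * N) * b ^ s * W2 ^ e * E2 ^ H) *
        (ξt * u ^ s * w ^ e * β ^ H * α0 ^ (N * (P + 1))) := by
      have k1 : ee ^ H = β ^ H * E2 ^ H := by rw [← eβ, mul_pow]
      have k2 : W1 ^ e = w ^ e * W2 ^ e := by rw [← ew, mul_pow]
      have k3 : a ^ s = u ^ s * b ^ s := by rw [← eu, mul_pow]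
      rw [k1, k2, k3]
      calc ξt * b ^ ((P + 1) * N) * (β ^ H * E2 ^ H) * (w ^ e * W2 ^ e) * (u ^ s * b ^ s)
          = ((α0 ^ (N * (P + 1)))⁻¹ * α0 ^ (N * (P + 1))) *
            (ξt * b ^ ((P + 1) * N) * (β ^ H * E2 ^ H) * (w ^ e * W2 ^ e) * (u ^ s * b ^ s)) := by
            rw [f5, one_mul]
        _ = _ := by ring
    rw [f1, f2, g1, g2]
    ring
  rw [h, norm_mul]
  have hF : ‖(α0 ^ (N * (P + 1)))⁻¹ * b ^ ((P + 1) * N) * b ^ s * W2 ^ e * E2 ^ H‖ = 1 := by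
    rw [norm_mul, norm_mul, norm_mul, norm_mul, norm_inv, norm_pow, norm_pow, norm_pow, norm_pow,
      norm_pow, hα0, hb, hW2, hE2]
    simp
  rw [hF, one_mul]
  exact s4

/-- The truncated logarithm: homogeneous form. -/
theorem L1_eq {K : Type} [Field K] {p : ℕ} (hp : 2 ≤ p) (u v : K) (hv : v ≠ 0) :
    v * L1 p (lc K) u v = v ^ (p - 1) * l1 p (u / v) := by
  unfold L1 l1
  rw [Finset.mul_sum, Finset.mul_sum]
  refine Finset.sum_congr rfl fun j hj => ?_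
  rw [Finset.mem_range] at hj
  have e1 : v ^ (p - 1) = v ^ j * (v * v ^ (p - 2 - j)) := by
    rw [← pow_succ', ← pow_add]; congr 1; omega
  rw [e1, div_pow]
  have hvj : v ^ j ≠ 0 := pow_ne_zero _ hv
  field_simp

theorem lc_norm {K : Type} [NormedField K] [IsUltrametricDist K] [CharZero K] {p : ℕ}
    (hp : p.Prime) (hE : Ext p K) {j : ℕ} (hj : j < p - 1) : ‖lc K j‖ = 1 := by
  unfold lc
  rw [norm_div, norm_pow, norm_neg, norm_one, one_pow,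
    norm_nat_eq_one hp hE (n := j + 1) (fun h => by
      have := Nat.le_of_dvd (Nat.succ_pos j) h
      omega), div_one]

theorem l1_near {K : Type} [NormedField K] [IsUltrametricDist K] [CharZero K] {p : ℕ}
    (hp : p.Prime) (hE : Ext p K) {x z : K} {c : ℝ} (hc : 0 ≤ c) (hx : ‖x‖ ≤ 1) (hz : ‖z‖ ≤ 1)
    (h : ‖x - z‖ ≤ c) : ‖l1 p x - l1 p z‖ ≤ c := by
  unfold l1
  rw [← Finset.sum_sub_distrib]
  refine IsUltrametricDist.norm_sum_le_of_forall_le_of_nonneg hc fun j hj => ?_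
  rw [Finset.mem_range] at hj
  rw [← mul_sub, norm_mul, lc_norm hp hE hj, one_mul]
  exact (pow_near hx hz j).trans h

theorem uu_mul {K : Type} [NormedField K] [IsUltrametricDist K] [CharZero K] (hU : URRStmt)
    {p : ℕ} (hp : p.Prime) (hE : Ext p K) {a b : K} (ha : Uu p a) (hb : Uu p b) :
    Uu p (a * b) :=
  ⟨((hU p hp K hE).1 a b ha.1 hb.1).2.1, by rw [norm_mul, ha.2, hb.2, one_mul]⟩

theorem uu_pow {K : Type} [NormedField K] [IsUltrametricDist K] [CharZero K] (hU : URRStmt)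
    {p : ℕ} (hp : p.Prime) (hE : Ext p K) {a : K} (ha : Uu p a) (n : ℕ) : Uu p (a ^ n) := by
  induction n with
  | zero =>
    rw [pow_zero]
    refine ⟨?_, norm_one⟩
    have := (hU p hp K hE).2.2.1 1
    rwa [Int.cast_one] at this
  | succ n ih =>
    rw [pow_succ]
    exact uu_mul hU hp hE ih ha

/-- WZE. -/
theorem wze (hWXA : WXAStmt) (hWXB : WXBStmt) (hPIE : PIEStmt) (hREL : RELStmt)
    (hTEF : TEFStmt) (hU : URRStmt) (hURP : URPStmt) (hEVO : EVOStmt) (hWWN : WWNStmt)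
    (_hTHB : THBStmt) : WZEStmt := by
  intro p hp K _ _ _ hE k _ _ r hr D A B E₁ E₂ w₁ w₂ h hD t t₀ ζ x Q ω η hWd hζ hω hη τ o n e ξ M E
    hWp
  have hp3 : 3 ≤ p := by omega
  have hη1 : IsPrimitiveRoot η (p ^ 1) := by rwa [pow_one]
  have hph : ph p 1 = p - 1 := by simp [ph]
  obtain ⟨hε1, hA⟩ := hWXA p hp K hE k r hr D A B E₁ E₂ w₁ w₂ h hD t t₀ ζ x Q ω η 1 hWd hζ hω
    le_rfl hη1 τ o n e ξ M E hWp
  obtain ⟨ξt, s, hξt, hξ⟩ := hWXB p hp K hE k r hr D A B E₁ E₂ w₁ w₂ h hD t t₀ ζ x Q ω η 1 hWd hζ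
    hω le_rfl hη1 τ o n e ξ M E hWp
  obtain ⟨hW1, -, hW3, -⟩ := hWWN p hp hp3 K hE 1 η le_rfl hη1
  have hW1' : ‖η - 1‖ ^ (p - 1) = (p : ℝ)⁻¹ := by simpa using hW1
  obtain ⟨-, hPI⟩ := hPIE p hp hp3 K hE 1 η le_rfl hη1
  have hPI' := hPI rfl
  rw [hph] at hA
  obtain ⟨EV1, EV2, EV3, EV4, EV5, EV6, EV7⟩ := hEVO K
  -- the size of `θ`
  obtain ⟨θ, hθ⟩ : ∃ θ : ℝ, θ = ‖t - t₀‖ := ⟨_, rfl⟩
  have hθ0 : 0 < θ := hθ ▸ hWp.y0
  have hθ1 : θ < 1 := hθ ▸ hWd.ht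
  have hyn : θ ^ n = ‖η - 1‖ := hθ ▸ hWp.yn
  have hpos : (0 : ℝ) < (p : ℝ)⁻¹ := inv_pos.mpr (by exact_mod_cast hp.pos)
  have hp1 : (p : ℝ)⁻¹ ≤ θ ^ (p - 1) := by
    rw [← hW1', ← hyn, ← pow_mul]
    exact pow_le_pow_of_le_one hθ0.le hθ1.le (Nat.le_mul_of_pos_left _ hWp.n1)
  have hplt : (p : ℝ)⁻¹ < 1 := by
    apply inv_lt_one_of_one_lt₀
    exact_mod_cast hp.one_lt
  have hεε : (p : ℝ)⁻¹ / θ ^ D ≤ θ ^ (p - 1 - D) := by
    rw [div_le_iff₀ (pow_pos hθ0 D), ← pow_add]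
    have : p - 1 - D + D = p - 1 := by omega
    rw [this]; exact hp1
  have hp2 : (p : ℝ)⁻¹ ≤ θ ^ (p - 1 - D) :=
    hp1.trans (pow_le_pow_of_le_one hθ0.le hθ1.le (by omega))
  have hθp : θ ^ p ≤ θ ^ (p - 1 - D) := pow_le_pow_of_le_one hθ0.le hθ1.le (by omega)
  rw [← hθ] at hA ⊢
  refine ⟨hp1, ?_⟩
  -- norms
  obtain ⟨TE1, TE2, TE3, TE4⟩ := hTEF p hp K hE
  have hωU : Uu p ω := (TE2 ω hω).2.1
  have hξtU : Uu p ξt := (TE2 ξt hξt).2.1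
  have ht₀U : Ur p t₀ := (TE1 t₀ hWd.te).1
  have nt₀ : ‖t₀‖ ≤ 1 := (TE1 t₀ hWd.te).2.1
  have nt : ‖t‖ ≤ 1 := by
    have h1 : t = (t - t₀) + t₀ := by ring
    rw [h1]; exact add_le' hWd.ht.le nt₀
  have nη : ‖η‖ = 1 := norm_one_of_near (y := 1) norm_one hW3
  have nb : ‖ω * aeval t B‖ = 1 := by rw [norm_mul, hωU.2, hWd.nB, one_mul]
  have near0 : ∀ F : ℤ[X], ‖aeval t F‖ = 1 → ‖aeval t F - aeval t₀ F‖ ≤ θ ∧ ‖aeval t₀ F‖ = 1 := by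
    intro F hF
    have h1 : ‖aeval t F - aeval t₀ F‖ ≤ θ := by rw [hθ]; exact (EV7 F t t₀ nt nt₀).2.1
    refine ⟨h1, norm_one_of_near hF ?_⟩
    rw [norm_sub_rev]
    exact h1.trans_lt hθ1
  obtain ⟨nB1, nB2⟩ := near0 B hWd.nB
  obtain ⟨nE1, nE2⟩ := near0 E₂ hWd.nE
  have nb0 : ‖ω * aeval t₀ B‖ = 1 := by rw [norm_mul, hωU.2, nB2, one_mul]
  have nb1 : ‖ω * aeval t B - ω * aeval t₀ B‖ ≤ θ := by
    rw [← mul_sub, norm_mul, hωU.2, one_mul]; exact nB1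
  obtain ⟨M1, M2, M3⟩ := hWp.M1
  obtain ⟨E1, E2, E3⟩ := hWp.E1
  rw [← hθ] at M3 E3
  -- `p`-th powers
  have rα := (hREL p hp K hE (evO M (t - t₀)) (evO M 0) (ω * aeval t B) (ω * aeval t₀ B) M1 M2 nb
    nb0 θ M3 nb1).2.1
  have nα : ‖evO M (t - t₀) / (ω * aeval t B)‖ = 1 := by rw [norm_div, M1, nb, div_one]
  have nα0 : ‖evO M 0 / (ω * aeval t₀ B)‖ = 1 := by rw [norm_div, M2, nb0, div_one]
  have rβ := (hREL p hp K hE (evO E (t - t₀)) (evO E 0) (aeval t E₂) (aeval t₀ E₂) E1 E2 hWd.nE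
    nE2 θ E3 nE1).2.1
  have nβ : ‖evO E (t - t₀) / aeval t E₂‖ = 1 := by rw [norm_div, E1, hWd.nE, div_one]
  have nβ0 : ‖evO E 0 / aeval t₀ E₂‖ = 1 := by rw [norm_div, E2, nE2, div_one]
  have pα := ((hREL p hp K hE _ _ _ _ nα nα0 nα nα0 θ rα rα).2.2.2 hθ1 hp1).trans hθp
  have pβ := ((hREL p hp K hE _ _ _ _ nβ nβ0 nβ nβ0 θ rβ rβ).2.2.2 hθ1 hp1).trans hθp
  -- the logarithm
  have npK : ‖(p : K)‖ = (p : ℝ)⁻¹ := norm_p hp hE
  have hpK : (p : K) ≠ 0 := by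
    intro h0
    rw [h0, norm_zero] at npK
    exact hpos.ne npK
  have hb0 : ω * aeval t B ≠ 0 := by
    intro h0; rw [h0, norm_zero] at nb; exact one_ne_zero nb.symm
  have nπ : ‖η - 1‖ ≤ 1 := hW3.le
  have q1 : ‖(η - 1) ^ (p - 1) / (p : K) + l1 p (η - 1)‖ ≤ (p : ℝ)⁻¹ := by
    have h1 : (η - 1) ^ (p - 1) / (p : K) + l1 p (η - 1) =
        ((η - 1) ^ (p - 1) + (p : K) * l1 p (η - 1)) / (p : K) := by field_simp
    rw [h1, norm_div, npK, div_le_iff₀ hpos, ← sq]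
    exact hPI'
  have nq : ‖(η - 1) ^ (p - 1) / (p : K)‖ = 1 := by
    rw [norm_div, norm_pow, hW1', npK, div_self hpos.ne']
  have h5 : ‖aeval t A / (ω * aeval t B) - η‖ ≤ (p : ℝ)⁻¹ := by
    have h1 : aeval t A / (ω * aeval t B) - η =
        (aeval t A - ζ * aeval t B) / (ω * aeval t B) := by
      rw [hζ, eq_div_iff hb0, sub_mul, div_mul_cancel₀ _ hb0]; ring
    rw [h1, norm_div, nb, div_one]
    exact hWd.hz
  have hz1 : ‖(aeval t A - ω * aeval t B) / (ω * aeval t B) - (η - 1)‖ ≤ (p : ℝ)⁻¹ := by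
    have h1 : (aeval t A - ω * aeval t B) / (ω * aeval t B) - (η - 1) =
        aeval t A / (ω * aeval t B) - η := by rw [sub_div, div_self hb0]; ring
    rw [h1]; exact h5
  have nz : ‖(aeval t A - ω * aeval t B) / (ω * aeval t B)‖ ≤ 1 := by
    have h1 : (aeval t A - ω * aeval t B) / (ω * aeval t B) =
        ((aeval t A - ω * aeval t B) / (ω * aeval t B) - (η - 1)) + (η - 1) := by ring
    rw [h1]; exact add_le' (hz1.trans hplt.le) nπ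
  have q2 : ‖(η - 1) ^ (p - 1) / (p : K) +
      l1 p ((aeval t A - ω * aeval t B) / (ω * aeval t B))‖ ≤ (p : ℝ)⁻¹ := by
    have h1 : (η - 1) ^ (p - 1) / (p : K) +
        l1 p ((aeval t A - ω * aeval t B) / (ω * aeval t B)) =
        ((η - 1) ^ (p - 1) / (p : K) + l1 p (η - 1)) +
        (l1 p ((aeval t A - ω * aeval t B) / (ω * aeval t B)) - l1 p (η - 1)) := by ring
    rw [h1]
    exact add_le' q1 (l1_near hp hE hpos.le nz nπ hz1)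
  have nlz : ‖l1 p ((aeval t A - ω * aeval t B) / (ω * aeval t B))‖ = 1 := by
    refine norm_one_of_near (y := -((η - 1) ^ (p - 1) / (p : K))) (by rw [norm_neg, nq]) ?_
    rw [sub_neg_eq_add, add_comm]
    exact q2.trans_lt hplt
  -- assembly
  have key := wze_core (P := p - 1) (N := e * h) (H := n * h) (e := e) (s := s)
    (q := (η - 1) ^ (p - 1) / (p : K))
    (lz := l1 p ((aeval t A - ω * aeval t B) / (ω * aeval t B)))
    (a := aeval t A) (b := ω * aeval t B) (m := evO M (t - t₀)) (ee := evO E (t - t₀))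
    (E2 := aeval t E₂) (W1 := aeval t w₁) (W2 := aeval t w₂) (ξ := ξ) (ξt := ξt) (η := η)
    (ω := ω) (Bt := aeval t B) (α0 := evO M 0 / (ω * aeval t₀ B)) (β0 := evO E 0 / aeval t₀ E₂)
    (L := L1 p (lc K) (aeval t A - ω * aeval t B) (ω * aeval t B)) (c := θ ^ (p - 1 - D))
    nb rfl hWd.nA M1 E1 hWd.nE hWd.n1 hWd.n2 hξtU.2 nη nα0 nβ0 nq nlz hξ
    (by
      have h1 : h * n * (p - 1) = n * h * (p - 1) := by ring
      rw [h1] at hA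
      exact hA.trans hεε)
    (by
      have h1 : p - 1 + 1 = p := by omega
      rw [h1]; exact pβ)
    (by
      have h1 : p - 1 + 1 = p := by omega
      rw [h1]; exact pα)
    (q2.trans hp2) (h5.trans hp2) (L1_eq hp.two_le _ _ hb0)
  have hpp : p - 1 + 1 = p := by omega
  rw [hpp] at key
  have UE0 : Uu p (evO E 0) := by
    refine ⟨?_, E2⟩
    have h1 : evO E 0 = ((E.coeff 0 : OO K) : K) := by
      unfold evO; rw [eval₂_at_zero]; rfl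
    rw [h1]; exact hWp.uE 0
  have UM0 : Uu p (evO M 0) := by
    refine ⟨?_, M2⟩
    have h1 : evO M 0 = ((M.coeff 0 : OO K) : K) := by
      unfold evO; rw [eval₂_at_zero]; rfl
    rw [h1]; exact hWp.uM 0
  obtain ⟨-, -, -, -, -, UP⟩ := hURP p hp K hE
  have UB : Uu p (aeval t₀ B) := ⟨UP B t₀ ht₀U, nB2⟩
  have UE : Uu p (aeval t₀ E₂) := ⟨UP E₂ t₀ ht₀U, nE2⟩
  have Uinv : ∀ a : K, Uu p a → Uu p a⁻¹ := (hU p hp K hE).2.2.2.2
  have Uα0 : Uu p (evO M 0 / (ω * aeval t₀ B)) := by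
    rw [div_eq_mul_inv]
    exact uu_mul hU hp hE UM0 (Uinv _ (uu_mul hU hp hE hωU UB))
  have Uβ0 : Uu p (evO E 0 / aeval t₀ E₂) := by
    rw [div_eq_mul_inv]
    exact uu_mul hU hp hE UE0 (Uinv _ UE)
  have Um1 : Uu p (-1 : K) := by
    refine ⟨?_, by rw [norm_neg, norm_one]⟩
    have := (hU p hp K hE).2.2.1 (-1)
    simpa using this
  refine ⟨(evO E 0 / aeval t₀ E₂) ^ (n * h * p) * (-1) ^ (e * h) *
    ((evO M 0 / (ω * aeval t₀ B)) ^ (e * h * p))⁻¹ * ω ^ s, ξt, s, ?_, hξt, ?_⟩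
  · exact uu_mul hU hp hE (uu_mul hU hp hE (uu_mul hU hp hE (uu_pow hU hp hE Uβ0 _)
      (uu_pow hU hp hE Um1 _)) (Uinv _ (uu_pow hU hp hE Uα0 _))) (uu_pow hU hp hE hωU _)
  · exact key

end Pool.Agent.ZPU.H51
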